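import Mathlib

set_option autoImplicit false
open Finset

namespace Pool.Agent.H.MP_932050_co

theorem trace_sq {ι : Type*} (J : Finset ι) (d : ℕ) (w : ι → Fin d → ℝ) :
    (∑ i ∈ J, ∑ a, w i a * w i a) ^ 2 ≤ d * ∑ i ∈ J, ∑ j ∈ J, (∑ a, w i a * w j a) ^ 2 := by
  have h1 : ∑ i ∈ J, ∑ j ∈ J, (∑ a, w i a * w j a) ^ 2
      = ∑ a, ∑ b, (∑ i ∈ J, w i a * w i b) ^ 2 := by
    have l : ∑ i ∈ J, ∑ j ∈ J, (∑ a, w i a * w j a) ^ 2
        = ∑ i ∈ J, ∑ j ∈ J, ∑ a, ∑ b, (w i a * w j a) * (w i b * w j b) := by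
      refine sum_congr rfl fun i _ => sum_congr rfl fun j _ => ?_
      rw [sq, sum_mul_sum]
    have r : ∑ a, ∑ b, (∑ i ∈ J, w i a * w i b) ^ 2
        = ∑ a, ∑ b, ∑ i ∈ J, ∑ j ∈ J, (w i a * w j a) * (w i b * w j b) := by
      refine sum_congr rfl fun a _ => sum_congr rfl fun b _ => ?_
      rw [sq, sum_mul_sum]
      refine sum_congr rfl fun i _ => sum_congr rfl fun j _ => by ring
    rw [l, r]
    calc ∑ i ∈ J, ∑ j ∈ J, ∑ a, ∑ b, (w i a * w j a) * (w i b * w j b)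
        = ∑ i ∈ J, ∑ a, ∑ b, ∑ j ∈ J, (w i a * w j a) * (w i b * w j b) := by
          refine sum_congr rfl fun i _ => ?_
          rw [sum_comm]
          refine sum_congr rfl fun a _ => ?_
          rw [sum_comm]
      _ = ∑ a, ∑ b, ∑ i ∈ J, ∑ j ∈ J, (w i a * w j a) * (w i b * w j b) := by
          rw [sum_comm]
          refine sum_congr rfl fun a _ => ?_
          rw [sum_comm]
  rw [h1, sum_comm]
  have h2 : (∑ a : Fin d, ∑ i ∈ J, w i a * w i a) ^ 2
      ≤ (univ : Finset (Fin d)).card * ∑ a : Fin d, (∑ i ∈ J, w i a * w i a) ^ 2 :=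
    sq_sum_le_card_mul_sum_sq
  rw [card_univ, Fintype.card_fin] at h2
  refine h2.trans (mul_le_mul_of_nonneg_left (sum_le_sum fun a _ => ?_) (Nat.cast_nonneg _))
  exact single_le_sum (f := fun b => (∑ i ∈ J, w i a * w i b) ^ 2) (fun b _ => sq_nonneg _)
    (mem_univ a)

theorem fin_step {ι : Type*} [DecidableEq ι] (J : Finset ι) (d : ℕ) (u : ι → Fin d → ℝ)
    (α σ : ℝ) (hα : α < 1) (hσ : 0 ≤ σ)
    (h1 : ∀ i ∈ J, ∑ a, u i a * u i a = 1)
    (h2 : ∀ i ∈ J, ∀ j ∈ J, i ≠ j → ∑ a, u i a * u j a ≤ α)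
    (h3 : ∀ i ∈ J, ∑ j ∈ J.erase i, (α - ∑ a, u i a * u j a) ^ 2 ≤ σ) :
    (1 - α) ^ 2 * ((J.card : ℝ) - 2) ≤ d * ((1 - α) ^ 2 + σ) := by
  rcases J.eq_empty_or_nonempty with rfl | hJ
  · have : 0 ≤ (d : ℝ) * ((1 - α) ^ 2 + σ) := by positivity
    simp only [card_empty, Nat.cast_zero]
    nlinarith [sq_nonneg (1 - α)]
  have hn : (0 : ℝ) < J.card := by exact_mod_cast hJ.card_pos
  have hn1 : (1 : ℝ) ≤ J.card := by exact_mod_cast hJ.card_pos
  set n : ℝ := ((J.card : ℕ) : ℝ) with hnd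
  set G : ι → ι → ℝ := fun i j => ∑ a, u i a * u j a with hG
  set m : Fin d → ℝ := fun a => (∑ i ∈ J, u i a) / n with hm
  set w : ι → Fin d → ℝ := fun i a => u i a - m a with hw
  set W : ι → ι → ℝ := fun i j => ∑ a, w i a * w j a with hW
  set g : ι → ℝ := fun i => ∑ a, u i a * m a with hg
  set h : ℝ := ∑ a, m a * m a with hh
  have hw0 : ∀ a, ∑ i ∈ J, w i a = 0 := by
    intro a
    simp only [hw, hm, sum_sub_distrib, sum_const, nsmul_eq_mul]
    rw [← hnd]; field_simp; ring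
  have hWrow : ∀ i, ∑ j ∈ J, W i j = 0 := by
    intro i
    simp only [hW]
    rw [sum_comm]
    refine sum_eq_zero fun a _ => ?_
    rw [← mul_sum, hw0, mul_zero]
  have hWsym : ∀ i j, W i j = W j i := fun i j => sum_congr rfl fun a _ => mul_comm _ _
  have hWG : ∀ i j, W i j = G i j - g i - g j + h := by
    intro i j
    simp only [hW, hG, hg, hh, hw, ← sum_sub_distrib, ← sum_add_distrib]
    exact sum_congr rfl fun a _ => by ring
  have hcross : ∑ i ∈ J, ∑ j ∈ J, W i j ^ 2 = ∑ i ∈ J, ∑ j ∈ J, W i j * (G i j - α) := by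
    have e : ∀ i j, W i j ^ 2 = W i j * (G i j - α) + (W i j * (α + h - g i) - W j i * g j) := by
      intro i j
      rw [← hWsym i j]
      have := hWG i j
      rw [sq]
      nth_rewrite 2 [this]
      ring
    have z1 : ∑ i ∈ J, ∑ j ∈ J, W i j * (α + h - g i) = 0 :=
      sum_eq_zero fun i _ => by rw [← sum_mul, hWrow, zero_mul]
    have z2 : ∑ i ∈ J, ∑ j ∈ J, W j i * g j = 0 := by
      rw [sum_comm]
      exact sum_eq_zero fun i _ => by rw [← sum_mul, hWrow, zero_mul]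
    simp only [e, sum_add_distrib, sum_sub_distrib, z1, z2]
    ring
  have hM : ∑ i ∈ J, ∑ j ∈ J, (G i j - α) ^ 2 ≤ n * ((1 - α) ^ 2 + σ) := by
    have : ∀ i ∈ J, ∑ j ∈ J, (G i j - α) ^ 2 ≤ (1 - α) ^ 2 + σ := by
      intro i hi
      rw [← add_sum_erase _ _ hi]
      have e1 : G i i = 1 := h1 i hi
      have e2 : ∑ j ∈ J.erase i, (G i j - α) ^ 2 = ∑ j ∈ J.erase i, (α - ∑ a, u i a * u j a) ^ 2 :=
        sum_congr rfl fun j _ => by simp only [hG]; ring
      rw [e1, e2]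
      linarith [h3 i hi]
    have := sum_le_card_nsmul _ _ _ this
    rwa [nsmul_eq_mul] at this
  have hWM : ∑ i ∈ J, ∑ j ∈ J, W i j ^ 2 ≤ n * ((1 - α) ^ 2 + σ) := by
    have : ∑ i ∈ J, ∑ j ∈ J, W i j * (G i j - α)
        ≤ ∑ i ∈ J, ∑ j ∈ J, (W i j ^ 2 / 2 + (G i j - α) ^ 2 / 2) :=
      sum_le_sum fun i _ => sum_le_sum fun j _ => by nlinarith [sq_nonneg (W i j - (G i j - α))]
    simp only [sum_add_distrib, ← sum_div] at this
    linarith
  have htr : (1 - α) * (n - 1) ≤ ∑ i ∈ J, W i i := by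
    have hgs : ∑ i ∈ J, g i = n * h := by
      simp only [hg, hh]
      rw [sum_comm, mul_sum]
      refine sum_congr rfl fun a _ => ?_
      rw [← sum_mul]
      simp only [hm]
      field_simp
    have hGs : ∑ i ∈ J, ∑ j ∈ J, G i j = n ^ 2 * h := by
      have : ∑ i ∈ J, ∑ j ∈ J, W i j = 0 := sum_eq_zero fun i _ => hWrow i
      simp only [hWG, sum_add_distrib, sum_sub_distrib, sum_const, nsmul_eq_mul, ← hnd, hgs,
        ← mul_sum] at this
      linarith
    have hGle : ∑ i ∈ J, ∑ j ∈ J, G i j ≤ n * (1 + (n - 1) * α) := by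
      have : ∀ i ∈ J, ∑ j ∈ J, G i j ≤ 1 + (n - 1) * α := by
        intro i hi
        rw [← add_sum_erase _ _ hi]
        have e1 : G i i = 1 := h1 i hi
        have e2 : ∑ j ∈ J.erase i, G i j ≤ (J.erase i).card • α :=
          sum_le_card_nsmul _ _ _ fun j hj => h2 i hi j (mem_of_mem_erase hj) (ne_of_mem_erase hj).symm
        rw [nsmul_eq_mul, card_erase_of_mem hi, Nat.cast_sub hJ.card_pos] at e2
        rw [e1]
        simp only [Nat.cast_one] at e2
        linarith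
      have := sum_le_card_nsmul _ _ _ this
      rwa [nsmul_eq_mul] at this
    have hd : ∑ i ∈ J, W i i = n - n * h := by
      have : ∀ i ∈ J, W i i = 1 - g i - g i + h := fun i hi => by
        rw [hWG]; have e1 : G i i = 1 := h1 i hi
        rw [e1]
      rw [sum_congr rfl this]
      simp only [sum_add_distrib, sum_sub_distrib, sum_const, nsmul_eq_mul, ← hnd, hgs]
      ring
    have : n * h ≤ 1 + (n - 1) * α := by
      have : n * (n * h) ≤ n * (1 + (n - 1) * α) := by nlinarith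
      exact le_of_mul_le_mul_left this hn
    rw [hd]; linarith
  have ht := trace_sq J d w
  have h0 : 0 ≤ (1 - α) * (n - 1) := mul_nonneg (by linarith) (by linarith)
  have h4 : ((1 - α) * (n - 1)) ^ 2 ≤ d * (n * ((1 - α) ^ 2 + σ)) :=
    ((pow_le_pow_left₀ h0 htr 2).trans ht).trans
      (mul_le_mul_of_nonneg_left hWM (Nat.cast_nonneg _))
  have h5 : n * ((1 - α) ^ 2 * (n - 2)) ≤ n * (d * ((1 - α) ^ 2 + σ)) := by
    nlinarith [sq_nonneg (1 - α)]
  exact le_of_mul_le_mul_left h5 hn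

theorem heavy {ι : Type*} [DecidableEq ι] (I : Finset ι) (β : ι → ι → ℝ) (γ δ D : ℝ)
    (hγ : 0 < γ) (hδ : 0 < δ) (hD : 0 ≤ D)
    (hs : ∀ i j, β i j = β j i) (h0 : ∀ i j, 0 ≤ β i j) (hd : ∀ i, β i i = 0)
    (hr : ∀ i ∈ I, ∑ j ∈ I, β i j ≤ D)
    (hq : ∀ z : ι → ℝ, ∑ i ∈ I, z i = 0 →
      ∑ i ∈ I, ∑ j ∈ I, z i * z j * β i j ≤ γ * ∑ i ∈ I, z i ^ 2) :
    ((I.filter fun i => (γ + δ) ^ 2 < ∑ j ∈ I, β i j ^ 2).card : ℝ) ≤ 1 + 2 * D ^ 3 / (δ * γ ^ 2) := by
  set H := I.filter fun i => (γ + δ) ^ 2 < ∑ j ∈ I, β i j ^ 2 with hH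
  have hpos : 0 ≤ 2 * D ^ 3 / (δ * γ ^ 2) := by positivity
  rcases H.eq_empty_or_nonempty with he | ⟨i0, hi0⟩
  · rw [he]; simp only [card_empty, Nat.cast_zero]; linarith
  set s : ι → ℝ := fun i => √(∑ j ∈ I, β i j ^ 2) with hsd
  have hs2 : ∀ i, s i ^ 2 = ∑ j ∈ I, β i j ^ 2 := fun i =>
    Real.sq_sqrt (sum_nonneg fun _ _ => sq_nonneg _)
  have hs0 : ∀ i, 0 ≤ s i := fun i => Real.sqrt_nonneg _
  have hsD : ∀ i ∈ I, s i ≤ D := by
    intro i hi
    refine Real.sqrt_le_iff.2 ⟨hD, ?_⟩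
    have h1 : ∑ j ∈ I, β i j ^ 2 ≤ ∑ j ∈ I, β i j * D := sum_le_sum fun j hj => by
      have : β i j ≤ D := (single_le_sum (f := fun j => β i j) (fun j _ => h0 i j) hj).trans (hr i hi)
      nlinarith [h0 i j]
    rw [← sum_mul] at h1
    nlinarith [hr i hi]
  have hsH : ∀ i ∈ H, γ + δ < s i := fun i hi => Real.lt_sqrt_of_sq_lt (mem_filter.1 hi).2
  have hHI : ∀ i ∈ H, i ∈ I := fun i hi => (mem_filter.1 hi).1
  set x : ι → ι → ℝ := fun i j => (if j = i then s i else 0) + β i j with hx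
  have hx0 : ∀ i j, 0 ≤ x i j := fun i j => by
    simp only [hx]; split_ifs
    · exact add_nonneg (hs0 _) (h0 _ _)
    · simpa using h0 i j
  have hxb : ∀ i j, β i j ≤ x i j := fun i j => by
    simp only [hx]; split_ifs
    · linarith [hs0 i]
    · simp
  have hxx : ∀ i, x i i = s i := fun i => by simp [hx, hd]
  have hx1 : ∀ i ∈ I, ∑ j ∈ I, x i j = s i + ∑ j ∈ I, β i j := fun i hi => by
    simp only [hx, sum_add_distrib, sum_ite_eq', hi, if_true]
  have hx2 : ∀ i ∈ I, ∑ j ∈ I, x i j ^ 2 = 2 * s i ^ 2 := by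
    intro i hi
    have : ∀ j, x i j ^ 2 = (if j = i then s i ^ 2 else 0) + β i j ^ 2 := by
      intro j
      simp only [hx]
      split_ifs with h
      · rw [h, hd]; ring
      · ring
    simp only [this, sum_add_distrib, sum_ite_eq', hi, if_true, ← hs2]
    ring
  set b : (ι → ℝ) → (ι → ℝ) → ℝ := fun y z => ∑ i ∈ I, ∑ j ∈ I, y i * z j * β i j with hb
  have hbsym : ∀ y z, b y z = b z y := by
    intro y z
    simp only [hb]
    rw [sum_comm]
    exact sum_congr rfl fun i _ => sum_congr rfl fun j _ => by rw [hs j i]; ring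
  have hbx : ∀ i ∈ I, 2 * s i ^ 3 ≤ b (x i) (x i) := by
    intro i hi
    have e1 : b (x i) (x i) = ∑ j ∈ I, x i i * x i j * β i j
        + ∑ u ∈ I.erase i, ∑ j ∈ I, x i u * x i j * β u j := by
      simp only [hb]
      rw [← add_sum_erase _ _ hi]
    have e2 : s i ^ 3 ≤ ∑ j ∈ I, x i i * x i j * β i j := by
      have : s i ^ 3 = ∑ j ∈ I, s i * β i j ^ 2 := by rw [← mul_sum, ← hs2]; ring
      rw [this, hxx]
      refine sum_le_sum fun j _ => ?_
      have := mul_le_mul_of_nonneg_left (hxb i j) (mul_nonneg (hs0 i) (h0 i j))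
      nlinarith
    have e3 : s i ^ 3 ≤ ∑ u ∈ I.erase i, ∑ j ∈ I, x i u * x i j * β u j := by
      have : s i ^ 3 = ∑ u ∈ I.erase i, s i * β i u ^ 2 := by
        rw [← mul_sum, sum_erase _ (by rw [hd]; ring), ← hs2]; ring
      rw [this]
      refine sum_le_sum fun u _ => ?_
      refine le_trans ?_ (single_le_sum (f := fun j => x i u * x i j * β u j)
        (fun j _ => mul_nonneg (mul_nonneg (hx0 _ _) (hx0 _ _)) (h0 _ _)) hi)
      rw [hxx, hs u i]
      have := mul_le_mul_of_nonneg_left (hxb i u) (mul_nonneg (hs0 i) (h0 i u))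
      nlinarith
    linarith
  have hpair : ∀ i ∈ H, ∀ i' ∈ H, 2 * δ * γ ^ 2 ≤ b (x i) (x i') ∨ i = i' := by
    intro i hi i' hi'
    left
    have hI := hHI i hi
    have hI' := hHI i' hi'
    set σ := ∑ j ∈ I, x i j with hσ
    set σ' := ∑ j ∈ I, x i' j with hσ'
    have p1 := hsH i hi
    have p2 := hsH i' hi'
    have hσ0 : 0 < σ := by
      rw [hσ, hx1 i hI]
      have := sum_nonneg fun j (_ : j ∈ I) => h0 i j
      linarith
    have hσ0' : 0 < σ' := by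
      rw [hσ', hx1 i' hI']
      have := sum_nonneg fun j (_ : j ∈ I) => h0 i' j
      linarith
    have hz := hq (fun j => σ' * x i j - σ * x i' j) (by
      rw [sum_sub_distrib, ← mul_sum, ← mul_sum]; ring)
    have l1 : ∑ u ∈ I, ∑ j ∈ I, (σ' * x i u - σ * x i' u) * (σ' * x i j - σ * x i' j) * β u j
        = σ' ^ 2 * b (x i) (x i) + σ ^ 2 * b (x i') (x i')
          - σ * σ' * b (x i) (x i') - σ * σ' * b (x i') (x i) := by
      simp only [hb, mul_sum, ← sum_add_distrib, ← sum_sub_distrib]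
      exact sum_congr rfl fun u _ => sum_congr rfl fun j _ => by ring
    have l2 : ∑ j ∈ I, (σ' * x i j - σ * x i' j) ^ 2
        ≤ σ' ^ 2 * (2 * s i ^ 2) + σ ^ 2 * (2 * s i' ^ 2) := by
      rw [← hx2 i hI, ← hx2 i' hI', mul_sum, mul_sum, ← sum_add_distrib]
      refine sum_le_sum fun j _ => ?_
      have := mul_nonneg (mul_nonneg hσ0.le hσ0'.le) (mul_nonneg (hx0 i j) (hx0 i' j))
      nlinarith
    rw [l1, hbsym (x i') (x i)] at hz
    have q1 : σ' ^ 2 * (2 * s i ^ 2 * (γ + δ)) ≤ σ' ^ 2 * b (x i) (x i) := by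
      refine mul_le_mul_of_nonneg_left (le_trans ?_ (hbx i hI)) (sq_nonneg _)
      nlinarith [sq_nonneg (s i)]
    have q2 : σ ^ 2 * (2 * s i' ^ 2 * (γ + δ)) ≤ σ ^ 2 * b (x i') (x i') := by
      refine mul_le_mul_of_nonneg_left (le_trans ?_ (hbx i' hI')) (sq_nonneg _)
      nlinarith [sq_nonneg (s i')]
    have q3 := mul_le_mul_of_nonneg_left l2 hγ.le
    have q4 : δ * (σ' ^ 2 * s i ^ 2 + σ ^ 2 * s i' ^ 2) ≤ σ * σ' * b (x i) (x i') := by nlinarith
    have q5 : 2 * (σ * σ') * (s i * s i') ≤ σ' ^ 2 * s i ^ 2 + σ ^ 2 * s i' ^ 2 := by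
      nlinarith [sq_nonneg (σ' * s i - σ * s i')]
    have q6 : γ ^ 2 ≤ s i * s i' := by nlinarith
    have q7 : σ * σ' * (2 * δ * γ ^ 2) ≤ σ * σ' * b (x i) (x i') := by
      have a1 := mul_le_mul_of_nonneg_left q5 hδ.le
      have a2 := mul_le_mul_of_nonneg_left q6 (by positivity : 0 ≤ 2 * δ * (σ * σ'))
      nlinarith
    exact le_of_mul_le_mul_left q7 (mul_pos hσ0 hσ0')
  have hI0 := hHI i0 hi0
  have t1 : (H.erase i0).card • (2 * δ * γ ^ 2) ≤ ∑ i' ∈ H.erase i0, b (x i0) (x i') :=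
    card_nsmul_le_sum _ _ _ fun i' hi' =>
      (hpair i0 hi0 i' (mem_of_mem_erase hi')).resolve_right (ne_of_mem_erase hi').symm
  have t2 : ∑ i' ∈ H.erase i0, b (x i0) (x i') ≤ 2 * D * (D * (2 * D)) := by
    have c1 : ∀ j ∈ I, ∑ i' ∈ H.erase i0, x i' j ≤ 2 * D := by
      intro j hj
      have : ∑ i' ∈ H.erase i0, x i' j ≤ ∑ i' ∈ I, x i' j :=
        sum_le_sum_of_subset_of_nonneg (fun a ha => hHI a (mem_of_mem_erase ha)) fun _ _ _ => hx0 _ _
      refine this.trans ?_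
      have e : ∑ i' ∈ I, x i' j = s j + ∑ i' ∈ I, β j i' := by
        simp only [hx, sum_add_distrib, sum_ite_eq, hj, if_true, hs j]
      rw [e]
      linarith [hsD j hj, hr j hj]
    have c2 : ∑ i' ∈ H.erase i0, b (x i0) (x i')
        = ∑ u ∈ I, x i0 u * ∑ j ∈ I, β u j * ∑ i' ∈ H.erase i0, x i' j := by
      simp only [hb]
      rw [sum_comm]
      refine sum_congr rfl fun u _ => ?_
      rw [sum_comm, mul_sum]
      refine sum_congr rfl fun j _ => ?_
      rw [mul_sum, mul_sum]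
      exact sum_congr rfl fun i' _ => by ring
    rw [c2]
    have c3 : ∀ u ∈ I, x i0 u * ∑ j ∈ I, β u j * ∑ i' ∈ H.erase i0, x i' j
        ≤ x i0 u * (D * (2 * D)) := by
      intro u hu
      refine mul_le_mul_of_nonneg_left ?_ (hx0 _ _)
      have : ∑ j ∈ I, β u j * ∑ i' ∈ H.erase i0, x i' j ≤ ∑ j ∈ I, β u j * (2 * D) :=
        sum_le_sum fun j hj => mul_le_mul_of_nonneg_left (c1 j hj) (h0 _ _)
      rw [← sum_mul] at this
      exact this.trans (mul_le_mul_of_nonneg_right (hr u hu) (by positivity))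
    refine (sum_le_sum c3).trans ?_
    rw [← sum_mul, hx1 i0 hI0]
    refine mul_le_mul_of_nonneg_right ?_ (by positivity)
    linarith [hsD i0 hI0, hr i0 hI0]
  rw [nsmul_eq_mul, card_erase_of_mem hi0, Nat.cast_sub (card_pos.2 ⟨i0, hi0⟩)] at t1
  have t3 : ((H.card : ℝ) - 1) ≤ 2 * D ^ 3 / (δ * γ ^ 2) := by
    rw [le_div_iff₀ (by positivity)]
    simp only [Nat.cast_one] at t1
    nlinarith
  linarith

theorem vec {α ε D : ℝ} (hα : α < 1) (hε : 0 < ε) (hε1 : ε ≤ 1) (hD : 0 ≤ D)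
    {ι : Type*} [DecidableEq ι] (I : Finset ι) (d : ℕ) (u : ι → Fin d → ℝ)
    (h1 : ∀ i ∈ I, ∑ a, u i a * u i a = 1)
    (h2 : ∀ i ∈ I, ∀ j ∈ I, i ≠ j → ∑ a, u i a * u j a ≤ α)
    (h3 : ∀ i ∈ I, ∑ j ∈ I.erase i, (α - ∑ a, u i a * u j a) ≤ D) :
    (I.card : ℝ) ≤ (2 + 3 * ε) * d + (3 + 2 * D ^ 3 / (ε * (1 - α) * (1 - α) ^ 2)) := by
  set γ := 1 - α with hγ
  have hγ0 : 0 < γ := by linarith
  set G : ι → ι → ℝ := fun i j => ∑ a, u i a * u j a with hG
  set β : ι → ι → ℝ := fun i j => if i ∈ I ∧ j ∈ I ∧ i ≠ j then α - G i j else 0 with hβ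
  have hGs : ∀ i j, G i j = G j i := fun i j => sum_congr rfl fun a _ => mul_comm _ _
  have hβe : ∀ i ∈ I, ∀ j ∈ I, i ≠ j → β i j = α - G i j := fun i hi j hj h => by
    simp only [hβ]; rw [if_pos ⟨hi, hj, h⟩]
  have hd : ∀ i, β i i = 0 := fun i => by simp [hβ]
  have hH := heavy I β γ (ε * γ) D hγ0 (by positivity) hD
    (fun i j => by
      simp only [hβ]
      by_cases h : i ∈ I ∧ j ∈ I ∧ i ≠ j
      · rw [if_pos h, if_pos ⟨h.2.1, h.1, h.2.2.symm⟩, hGs]
      · rw [if_neg h, if_neg fun h' => h ⟨h'.2.1, h'.1, h'.2.2.symm⟩])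
    (fun i j => by
      simp only [hβ]
      split_ifs with h
      · linarith [h2 i h.1 j h.2.1 h.2.2]
      · exact le_rfl)
    hd
    (fun i hi => by
      rw [← sum_erase _ (hd i)]
      refine le_trans (le_of_eq (sum_congr rfl fun j hj => ?_)) (h3 i hi)
      exact hβe i hi j (mem_of_mem_erase hj) (ne_of_mem_erase hj).symm)
    (fun z hz => by
      have e1 : ∀ i ∈ I, ∀ j ∈ I, z i * z j * β i j
          = (if j = i then γ * z i ^ 2 else 0) + α * z i * z j - z i * z j * G i j := by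
        intro i hi j hj
        split_ifs with h
        · have : G i i = 1 := h1 i hi
          rw [h, hd, this, hγ]; ring
        · rw [hβe i hi j hj (Ne.symm h)]; ring
      have e2 : ∑ i ∈ I, ∑ j ∈ I, z i * z j * β i j
          = γ * ∑ i ∈ I, z i ^ 2 - ∑ i ∈ I, ∑ j ∈ I, z i * z j * G i j := by
        rw [mul_sum, ← sum_sub_distrib]
        refine sum_congr rfl fun i hi => ?_
        rw [sum_congr rfl (e1 i hi), sum_sub_distrib, sum_add_distrib, sum_ite_eq', if_pos hi,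
          ← mul_sum, hz]
        ring
      have e3 : ∑ i ∈ I, ∑ j ∈ I, z i * z j * G i j = ∑ a, (∑ i ∈ I, z i * u i a) ^ 2 := by
        have : ∀ a, (∑ i ∈ I, z i * u i a) ^ 2 = ∑ i ∈ I, ∑ j ∈ I, z i * u i a * (z j * u j a) :=
          fun a => by rw [sq, sum_mul_sum]
        simp only [this, hG, mul_sum]
        rw [sum_comm (s := univ)]
        refine sum_congr rfl fun i _ => ?_
        rw [sum_comm (s := univ)]
        exact sum_congr rfl fun j _ => sum_congr rfl fun a _ => by ring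
      rw [e2, e3]
      have : 0 ≤ ∑ a, (∑ i ∈ I, z i * u i a) ^ 2 := sum_nonneg fun _ _ => sq_nonneg _
      linarith)
  set J := I.filter fun i => ¬ (γ + ε * γ) ^ 2 < ∑ j ∈ I, β i j ^ 2 with hJ
  have hc := card_filter_add_card_filter_not (s := I) fun i => (γ + ε * γ) ^ 2 < ∑ j ∈ I, β i j ^ 2
  have hJI : ∀ i ∈ J, i ∈ I := fun i hi => (mem_filter.1 hi).1
  have hf := fin_step J d u α ((γ + ε * γ) ^ 2) hα (sq_nonneg _) (fun i hi => h1 i (hJI i hi))
    (fun i hi j hj h => h2 i (hJI i hi) j (hJI j hj) h) (fun i hi => by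
      refine le_trans ?_ (not_lt.1 (mem_filter.1 hi).2)
      have : ∑ j ∈ J.erase i, (α - ∑ a, u i a * u j a) ^ 2 = ∑ j ∈ J.erase i, β i j ^ 2 :=
        sum_congr rfl fun j hj => by
          rw [hβe i (hJI i hi) j (hJI j (mem_of_mem_erase hj)) (ne_of_mem_erase hj).symm]
      rw [this]
      exact sum_le_sum_of_subset_of_nonneg (fun a ha => hJI a (mem_of_mem_erase ha))
        fun _ _ _ => sq_nonneg _)
  rw [← hγ] at hf
  have h5 : (J.card : ℝ) - 2 ≤ (2 + 3 * ε) * d := by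
    have a1 : γ ^ 2 * ((J.card : ℝ) - 2) ≤ γ ^ 2 * ((2 + 3 * ε) * d) := by
      refine hf.trans ?_
      have : (d : ℝ) * (γ ^ 2 + (γ + ε * γ) ^ 2) = γ ^ 2 * ((2 + 2 * ε + ε ^ 2) * d) := by ring
      rw [this]
      refine mul_le_mul_of_nonneg_left (mul_le_mul_of_nonneg_right ?_ (Nat.cast_nonneg _))
        (sq_nonneg _)
      nlinarith
    exact le_of_mul_le_mul_left a1 (by positivity)
  have hc' : (I.card : ℝ) = ((I.filter fun i => (γ + ε * γ) ^ 2 < ∑ j ∈ I, β i j ^ 2).card : ℝ)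
      + J.card := by exact_mod_cast hc.symm
  linarith

end Pool.Agent.H.MP_932050_co
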