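import Pool.Agent.H.MP_932050_co.A

set_option autoImplicit false
open Finset
open scoped RealInnerProductSpace

namespace Pool.Agent.H.MP_932050_co

structure Sys (ι : Type) (d k : ℕ) (α : ℝ) where
  P : ι → EuclideanSpace ℝ (Fin d) →ₗ[ℝ] EuclideanSpace ℝ (Fin d)
  f : ι → Fin k → EuclideanSpace ℝ (Fin d)
  sym : ∀ i x y, ⟪P i x, y⟫ = ⟪x, P i y⟫
  idem : ∀ i x, P i (P i x) = P i x
  iso : ∀ i j, i ≠ j → ∀ x, ‖P j (P i x)‖ = α * ‖P i x‖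
  par : ∀ i x y, ⟪P i x, y⟫ = ∑ s, ⟪f i s, x⟫ * ⟪f i s, y⟫
  fix : ∀ i s, P i (f i s) = f i s
  one : ∀ i s, ‖f i s‖ = 1

variable {ι : Type} [Fintype ι] [DecidableEq ι] {d k : ℕ} {α : ℝ} (X : Sys ι d k α)

omit [Fintype ι] [DecidableEq ι] in
theorem Sys.nsq (i : ι) (x : EuclideanSpace ℝ (Fin d)) : ‖X.P i x‖ ^ 2 = ⟪X.P i x, x⟫ := by
  rw [← real_inner_self_eq_norm_sq, X.sym, X.idem, real_inner_comm]

omit [Fintype ι] in
theorem Sys.tau (i j : ι) :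
    ∑ a, ⟪X.P i (EuclideanSpace.basisFun (Fin d) ℝ a), X.P j (EuclideanSpace.basisFun (Fin d) ℝ a)⟫
      = k * (α ^ 2 + if j = i then 1 - α ^ 2 else 0) := by
  set e := EuclideanSpace.basisFun (Fin d) ℝ
  have h1 : ∀ a, ⟪X.P i (e a), X.P j (e a)⟫ = ∑ s, ⟪X.P j (X.f i s), e a⟫ * ⟪e a, X.f i s⟫ := by
    intro a
    rw [X.par]
    refine sum_congr rfl fun s _ => ?_
    rw [X.sym, real_inner_comm (e a), mul_comm]
  simp only [h1]
  rw [sum_comm]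
  have h2 : ∀ s, ∑ a, ⟪X.P j (X.f i s), e a⟫ * ⟪e a, X.f i s⟫
      = α ^ 2 + if j = i then 1 - α ^ 2 else 0 := by
    intro s
    rw [e.sum_inner_mul_inner, ← X.nsq]
    split_ifs with h
    · rw [h, X.fix, X.one]; ring
    · have := X.iso i j (Ne.symm h) (X.f i s)
      rw [X.fix, X.one] at this
      rw [this]; ring
  simp only [h2, sum_const, card_univ, Fintype.card_fin, nsmul_eq_mul]

theorem Sys.frob (x y : EuclideanSpace ℝ (Fin d)) (hx : ‖x‖ = 1) (hy : ‖y‖ = 1)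
    (hN : 0 < Fintype.card ι) :
    ∑ i, (⟪X.P i x, y⟫ - (∑ j, ⟪X.P j x, y⟫) / Fintype.card ι) ^ 2 ≤ k := by
  set e := EuclideanSpace.basisFun (Fin d) ℝ
  have hN' : (0 : ℝ) < Fintype.card ι := by exact_mod_cast hN
  set m : ℝ := (∑ j, ⟪X.P j x, y⟫) / Fintype.card ι with hm
  set c : ι → ℝ := fun i => ⟪X.P i x, y⟫ - m with hc
  have hc0 : ∑ i, c i = 0 := by
    simp only [hc, sum_sub_distrib, sum_const, card_univ, nsmul_eq_mul]
    rw [hm]; field_simp; ring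
  set A : EuclideanSpace ℝ (Fin d) → EuclideanSpace ℝ (Fin d) := fun z => ∑ i, c i • X.P i z with hA
  have hAs : ∀ z w, ⟪A z, w⟫ = ⟪z, A w⟫ := by
    intro z w
    simp only [hA, sum_inner, inner_sum, real_inner_smul_left, real_inner_smul_right, X.sym]
  have h1 : ∑ i, c i ^ 2 = ⟪A x, y⟫ := by
    have : ⟪A x, y⟫ = ∑ i, (c i ^ 2 + c i * m) := by
      simp only [hA, sum_inner, real_inner_smul_left]
      refine sum_congr rfl fun i _ => ?_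
      simp only [hc]; ring
    rw [this, sum_add_distrib, ← sum_mul, hc0]; ring
  have h2 : ‖A x‖ ^ 2 ≤ ∑ a, ‖A (e a)‖ ^ 2 := by
    rw [← real_inner_self_eq_norm_sq, ← e.sum_inner_mul_inner]
    refine sum_le_sum fun a _ => ?_
    rw [real_inner_comm (A x) (e a), hAs, ← sq]
    have := abs_real_inner_le_norm x (A (e a))
    rw [hx, one_mul] at this
    exact sq_le_sq' (abs_le.1 this).1 (abs_le.1 this).2
  have h3 : ∑ a, ‖A (e a)‖ ^ 2 ≤ k * ∑ i, c i ^ 2 := by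
    have l : ∑ a, ‖A (e a)‖ ^ 2 = ∑ i, ∑ j, c i * c j * ∑ a, ⟪X.P i (e a), X.P j (e a)⟫ := by
      simp only [← real_inner_self_eq_norm_sq, hA, sum_inner, inner_sum, real_inner_smul_left,
        real_inner_smul_right, mul_sum]
      rw [sum_comm]
      refine sum_congr rfl fun i _ => ?_
      rw [sum_comm]
      refine sum_congr rfl fun j _ => sum_congr rfl fun a _ => ?_
      rw [real_inner_comm]; ring
    rw [l]
    have r : ∀ i, ∑ j, c i * c j * ∑ a, ⟪X.P i (e a), X.P j (e a)⟫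
        = k * (1 - α ^ 2) * c i ^ 2 := by
      intro i
      have : ∀ j, c i * c j * ∑ a, ⟪X.P i (e a), X.P j (e a)⟫
          = k * α ^ 2 * c i * c j + if j = i then k * (1 - α ^ 2) * c i ^ 2 else 0 := by
        intro j
        rw [X.tau]
        split_ifs with h
        · rw [h]; ring
        · ring
      simp only [this, sum_add_distrib, ← mul_sum, hc0, sum_ite_eq', mem_univ, if_true]
      ring
    simp only [r]
    rw [← mul_sum]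
    have : 0 ≤ (k : ℝ) * α ^ 2 * ∑ i, c i ^ 2 := by positivity
    nlinarith
  have h4 : ⟪A x, y⟫ ≤ ‖A x‖ := by
    have := real_inner_le_norm (A x) y
    rwa [hy, mul_one] at this
  have h0 : 0 ≤ ∑ i, c i ^ 2 := by positivity
  show ∑ i, c i ^ 2 ≤ k
  by_contra hlt
  push Not at hlt
  have h5 : (∑ i, c i ^ 2) ^ 2 ≤ ‖A x‖ ^ 2 := pow_le_pow_left₀ h0 (h1 ▸ h4) 2
  have hk : (0 : ℝ) ≤ k := Nat.cast_nonneg _
  nlinarith

omit [DecidableEq ι] in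
theorem var_eq (z : ι → ℝ) (hN : 0 < Fintype.card ι) :
    ∑ i, z i ^ 2 = ∑ i, (z i - (∑ j, z j) / Fintype.card ι) ^ 2 + (∑ j, z j) ^ 2 / Fintype.card ι := by
  have hN' : (0 : ℝ) < Fintype.card ι := by exact_mod_cast hN
  set m : ℝ := (∑ j, z j) / Fintype.card ι with hm
  have : ∀ i, (z i - m) ^ 2 = z i ^ 2 - 2 * m * z i + m ^ 2 := fun i => by ring
  simp only [this, sum_add_distrib, sum_sub_distrib, ← mul_sum, sum_const, card_univ, nsmul_eq_mul]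
  rw [hm]; field_simp; ring

omit [DecidableEq ι] in
theorem Sys.top (y : EuclideanSpace ℝ (Fin d)) (hy : ‖y‖ = 1) :
    ∃ x : EuclideanSpace ℝ (Fin d), ‖x‖ = 1 ∧
      ∀ z, ∑ i, ‖X.P i z‖ ^ 2 ≤ (∑ i, ‖X.P i x‖ ^ 2) * ‖z‖ ^ 2 := by
  have hc : Continuous fun z : EuclideanSpace ℝ (Fin d) => ∑ i, ‖X.P i z‖ ^ 2 :=
    continuous_finsetSum _ fun i _ => (X.P i).continuous_of_finiteDimensional.norm.pow 2
  obtain ⟨x, hx, hm⟩ := (isCompact_sphere (0 : EuclideanSpace ℝ (Fin d)) 1).exists_isMaxOn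
    ⟨y, by simpa using hy⟩ hc.continuousOn
  refine ⟨x, by simpa using hx, fun z => ?_⟩
  rcases eq_or_ne z 0 with rfl | hz
  · simp
  have hn : 0 < ‖z‖ := norm_pos_iff.2 hz
  have h1 : ‖z‖⁻¹ • z ∈ Metric.sphere (0 : EuclideanSpace ℝ (Fin d)) 1 := by
    simp [norm_smul, hn.ne']
  have h2 : ∑ i, ‖X.P i (‖z‖⁻¹ • z)‖ ^ 2 ≤ ∑ i, ‖X.P i x‖ ^ 2 := hm h1
  have h3 : ∑ i, ‖X.P i (‖z‖⁻¹ • z)‖ ^ 2 = (∑ i, ‖X.P i z‖ ^ 2) / ‖z‖ ^ 2 := by
    rw [sum_div]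
    refine sum_congr rfl fun i _ => ?_
    rw [map_smul, norm_smul, norm_inv, norm_norm]
    field_simp
  rwa [h3, div_le_iff₀ (by positivity)] at h2

theorem Sys.mu (i : ι) (z : EuclideanSpace ℝ (Fin d)) :
    ∑ j, ‖X.P j (X.P i z)‖ ^ 2 = (1 - α ^ 2 + Fintype.card ι * α ^ 2) * ‖X.P i z‖ ^ 2 := by
  have : ∀ j, ‖X.P j (X.P i z)‖ ^ 2
      = α ^ 2 * ‖X.P i z‖ ^ 2 + if j = i then (1 - α ^ 2) * ‖X.P i z‖ ^ 2 else 0 := by
    intro j
    split_ifs with h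
    · rw [h, X.idem]; ring
    · rw [X.iso i j (Ne.symm h)]; ring
  simp only [this, sum_add_distrib, sum_const, card_univ, nsmul_eq_mul, sum_ite_eq', mem_univ,
    if_true]
  ring

omit [Fintype ι] [DecidableEq ι] in
theorem Sys.cross (i j : ι) (h : i ≠ j) (x : EuclideanSpace ℝ (Fin d)) :
    |⟪X.P i x, X.P j x⟫| ≤ α * ‖X.P i x‖ * ‖X.P j x‖ := by
  have : ⟪X.P i x, X.P j x⟫ = ⟪X.P j (X.P i x), X.P j x⟫ := by rw [X.sym j, X.idem]
  rw [this, ← X.iso i j h]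
  exact abs_real_inner_le_norm _ _

theorem Sys.key (hk : 1 ≤ k) (h0 : 0 < α) (h1 : α < 1) (hN : 0 < Fintype.card ι) :
    ∃ x : EuclideanSpace ℝ (Fin d),
      ((univ.filter fun i => ‖X.P i x‖ ^ 2 < α ^ 2 / 2).card : ℝ) ≤ 4 * k / α ^ 4 ∧
      ∑ i, ∑ j ∈ univ.erase i, (α * ‖X.P i x‖ * ‖X.P j x‖ - ⟪X.P i x, X.P j x⟫)
        ≤ Fintype.card ι * (k ^ 2 / α ^ 2 + 1) := by
  obtain ⟨i0⟩ := Fintype.card_pos_iff.1 hN
  obtain ⟨x, hx, hm⟩ := X.top (X.f i0 ⟨0, hk⟩) (X.one _ _)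
  refine ⟨x, ?_⟩
  set N : ℝ := ((Fintype.card ι : ℕ) : ℝ) with hNd
  have hN' : (0 : ℝ) < N := by rw [hNd]; exact_mod_cast hN
  set l : ℝ := ∑ i, ‖X.P i x‖ ^ 2 with hl
  set T := ∑ i, X.P i x with hT
  have hα2 : α ^ 2 < 1 := by nlinarith
  have hlμ : 1 - α ^ 2 + N * α ^ 2 ≤ l := by
    have a1 := hm (X.f i0 ⟨0, hk⟩)
    have a2 := X.mu i0 (X.f i0 ⟨0, hk⟩)
    rw [X.fix, X.one] at a2
    rw [X.one, a2] at a1
    linarith
  have hl0 : 0 < l := by nlinarith [mul_pos hN' (pow_pos h0 2)]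
  have hq : ∀ z, ∑ j, ‖X.P j z‖ ^ 2 = ∑ j, ∑ s, ⟪z, X.f j s⟫ ^ 2 := fun z =>
    sum_congr rfl fun j _ => by
      rw [X.nsq, X.par]
      exact sum_congr rfl fun s _ => by rw [real_inner_comm, sq]
  have hcub : (1 - α ^ 2 + N * α ^ 2) * l ≤ N * k ^ 2 + l * ‖T‖ ^ 2 / N := by
    have a1 : (1 - α ^ 2 + N * α ^ 2) * l = ∑ i, ∑ j, ∑ s, ⟪X.P i x, X.f j s⟫ ^ 2 := by
      rw [hl, mul_sum]
      exact sum_congr rfl fun i _ => by rw [← hq, X.mu]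
    have a2 : ∑ i, ∑ j, ∑ s, ⟪X.P i x, X.f j s⟫ ^ 2 = ∑ j, ∑ s, ∑ i, ⟪X.P i x, X.f j s⟫ ^ 2 := by
      rw [sum_comm]
      exact sum_congr rfl fun j _ => sum_comm
    have a3 : ∀ j s, ∑ i, ⟪X.P i x, X.f j s⟫ ^ 2 ≤ k + ⟪T, X.f j s⟫ ^ 2 / N := by
      intro j s
      rw [var_eq _ hN, hT, sum_inner]
      have := X.frob x (X.f j s) hx (X.one _ _) hN
      linarith
    have a4 : ∑ j, ∑ s, ∑ i, ⟪X.P i x, X.f j s⟫ ^ 2
        ≤ ∑ j, ∑ s, ((k : ℝ) + ⟪T, X.f j s⟫ ^ 2 / N) :=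
      sum_le_sum fun j _ => sum_le_sum fun s _ => a3 j s
    simp only [sum_add_distrib, sum_const, card_univ, Fintype.card_fin, nsmul_eq_mul,
      ← sum_div] at a4
    rw [← hq, ← hNd] at a4
    have a5 : (∑ j, ‖X.P j T‖ ^ 2) / N ≤ l * ‖T‖ ^ 2 / N :=
      div_le_div_of_nonneg_right (hm T) hN'.le
    rw [a1, a2]
    nlinarith
  have hlT : l = ⟪T, x⟫ := by
    rw [hl, hT, sum_inner]
    exact sum_congr rfl fun i _ => X.nsq i x
  have hlt : l ≤ ‖T‖ := by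
    have := real_inner_le_norm T x
    rw [hx, mul_one] at this
    linarith
  have ht2 : α ^ 2 * N ^ 2 - N * (k ^ 2 / α ^ 2) ≤ ‖T‖ ^ 2 := by
    have a1 : N * k ^ 2 ≤ l * (k ^ 2 / α ^ 2) := by
      have : N * k ^ 2 = (N * α ^ 2) * (k ^ 2 / α ^ 2) := by field_simp
      rw [this]
      exact mul_le_mul_of_nonneg_right (by linarith) (by positivity)
    have a2 : l * (N * α ^ 2) ≤ l * (k ^ 2 / α ^ 2 + ‖T‖ ^ 2 / N) := by
      have : l * (k ^ 2 / α ^ 2 + ‖T‖ ^ 2 / N) = l * (k ^ 2 / α ^ 2) + l * ‖T‖ ^ 2 / N := by ring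
      rw [this]
      nlinarith
    have a3 := le_of_mul_le_mul_left a2 hl0
    have a4 : ‖T‖ ^ 2 = N * (‖T‖ ^ 2 / N) := by field_simp
    rw [a4]
    nlinarith
  have ha1 : ∀ i, ‖X.P i x‖ ^ 2 ≤ 1 := by
    intro i
    have a1 := X.nsq i x
    have a2 := real_inner_le_norm (X.P i x) x
    rw [hx, mul_one] at a2
    nlinarith [norm_nonneg (X.P i x)]
  have hlN : l ≤ N := by
    have := sum_le_card_nsmul univ _ _ fun i _ => ha1 i
    rwa [nsmul_eq_mul, mul_one, card_univ] at this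
  constructor
  · have a1 := X.frob x x hx hx hN
    simp only [← X.nsq] at a1
    rw [← hl, ← hNd] at a1
    have a2 : α ^ 2 ≤ l / N := by rw [le_div_iff₀ hN']; nlinarith
    have a3 : (univ.filter fun i => ‖X.P i x‖ ^ 2 < α ^ 2 / 2).card • (α ^ 4 / 4)
        ≤ ∑ i ∈ univ.filter fun i => ‖X.P i x‖ ^ 2 < α ^ 2 / 2, (‖X.P i x‖ ^ 2 - l / N) ^ 2 :=
      card_nsmul_le_sum _ _ _ fun i hi => by
        have := (mem_filter.1 hi).2
        nlinarith [pow_pos h0 2]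
    have a4 : ∑ i ∈ univ.filter fun i => ‖X.P i x‖ ^ 2 < α ^ 2 / 2, (‖X.P i x‖ ^ 2 - l / N) ^ 2
        ≤ ∑ i, (‖X.P i x‖ ^ 2 - l / N) ^ 2 :=
      sum_le_sum_of_subset_of_nonneg (filter_subset _ _) fun _ _ _ => sq_nonneg _
    rw [nsmul_eq_mul] at a3
    rw [le_div_iff₀ (by positivity)]
    linarith
  · have a1 : ∀ i, ∑ j ∈ univ.erase i, (α * ‖X.P i x‖ * ‖X.P j x‖ - ⟪X.P i x, X.P j x⟫)
        = ∑ j, (α * ‖X.P i x‖ * ‖X.P j x‖ - ⟪X.P i x, X.P j x⟫) + (1 - α) * ‖X.P i x‖ ^ 2 := by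
      intro i
      rw [← add_sum_erase _ _ (mem_univ i), real_inner_self_eq_norm_sq]
      ring
    have a2 : ∑ i, ∑ j, ⟪X.P i x, X.P j x⟫ = ‖T‖ ^ 2 := by
      rw [← real_inner_self_eq_norm_sq, hT, sum_inner]
      exact sum_congr rfl fun i _ => by rw [inner_sum]
    have a3 : ∑ i, ∑ j, α * ‖X.P i x‖ * ‖X.P j x‖ = α * (∑ i, ‖X.P i x‖) ^ 2 := by
      rw [sq, sum_mul_sum, mul_sum]
      refine sum_congr rfl fun i _ => ?_
      rw [mul_sum]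
      exact sum_congr rfl fun j _ => by ring
    have a4 : (∑ i, ‖X.P i x‖) ^ 2 ≤ (univ : Finset ι).card * ∑ i, ‖X.P i x‖ ^ 2 :=
      sq_sum_le_card_mul_sum_sq
    rw [card_univ, ← hNd, ← hl] at a4
    simp only [a1, sum_add_distrib, sum_sub_distrib, a2, a3]
    rw [← mul_sum, ← hl]
    have a5 : α * (N * l) - ‖T‖ ^ 2 ≤ N * (k ^ 2 / α ^ 2) := by
      have b1 : α * (N * l) ≤ α * N * ‖T‖ := by
        have := mul_le_mul_of_nonneg_left hlt (mul_pos h0 hN').le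
        linarith
      have b2 : 0 ≤ N * (k ^ 2 / α ^ 2) := by positivity
      rcases le_total (α * N) ‖T‖ with h | h
      · nlinarith [norm_nonneg T]
      · nlinarith [norm_nonneg T]
    have a6 := mul_le_mul_of_nonneg_left a4 h0.le
    nlinarith

end Pool.Agent.H.MP_932050_co
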