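import Pool.Agent.H.MP_932050_co.B

set_option autoImplicit false
open Finset
open scoped RealInnerProductSpace

namespace Pool.Agent.H.MP_932050_co

theorem inner_coord {d : ℕ} (x y : EuclideanSpace ℝ (Fin d)) : ⟪x, y⟫ = ∑ a, x a * y a := by
  simp [PiLp.inner_apply, mul_comm]

theorem core_pos {k : ℕ} {α η : ℝ} (hk : 1 ≤ k) (h0 : 0 < α) (h1 : α < 1) (hη : 0 < η)
    (hη1 : η ≤ 1) : ∃ C : ℝ, 0 ≤ C ∧ ∀ (ι : Type) [Fintype ι] (d : ℕ), Sys ι d k α →
      (1 - η) * Fintype.card ι ≤ (2 + 3 * η) * d + C := by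
  set D0 : ℝ := k ^ 2 / α ^ 2 + 1 with hD0
  have hD0p : 0 < D0 := by positivity
  set D : ℝ := 2 * (D0 / η) / α ^ 2 with hD
  have hγ : 0 < 1 - α := by linarith
  refine ⟨4 * k / α ^ 4 + (3 + 2 * D ^ 3 / (η * (1 - α) * (1 - α) ^ 2)), by positivity, ?_⟩
  intro ι _ d X
  classical
  rcases Nat.eq_zero_or_pos (Fintype.card ι) with hN | hN
  · rw [hN, Nat.cast_zero, mul_zero]; positivity
  obtain ⟨x, hb1, hb2⟩ := X.key hk h0 h1 hN
  set a : ι → ℝ := fun i => ‖X.P i x‖ with ha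
  set R : ι → ι → ℝ := fun i j => α * a i * a j - ⟪X.P i x, X.P j x⟫ with hR
  have hR0 : ∀ i j, i ≠ j → 0 ≤ R i j := fun i j h => by
    have := (abs_le.1 (X.cross i j h x)).2
    simp only [hR, ha]; linarith
  set ρ : ι → ℝ := fun i => ∑ j ∈ univ.erase i, R i j with hρ
  have hρ0 : ∀ i, 0 ≤ ρ i := fun i =>
    sum_nonneg fun j hj => hR0 i j (ne_of_mem_erase hj).symm
  have hb2' : ∑ i, ρ i ≤ Fintype.card ι * D0 := hb2
  have hb3 : ((univ.filter fun i => D0 / η < ρ i).card : ℝ) ≤ η * Fintype.card ι := by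
    have c1 : (univ.filter fun i => D0 / η < ρ i).card • (D0 / η)
        ≤ ∑ i ∈ univ.filter fun i => D0 / η < ρ i, ρ i :=
      card_nsmul_le_sum _ _ _ fun i hi => (mem_filter.1 hi).2.le
    have c2 : ∑ i ∈ univ.filter fun i => D0 / η < ρ i, ρ i ≤ ∑ i, ρ i :=
      sum_le_sum_of_subset_of_nonneg (filter_subset _ _) fun i _ _ => hρ0 i
    rw [nsmul_eq_mul] at c1
    have c3 : ((univ.filter fun i => D0 / η < ρ i).card : ℝ) * (D0 / η)
        ≤ (η * Fintype.card ι) * (D0 / η) := by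
      have : (η * Fintype.card ι) * (D0 / η) = Fintype.card ι * D0 := by field_simp
      rw [this]; linarith
    exact le_of_mul_le_mul_right c3 (by positivity)
  set I : Finset ι := univ.filter fun i => α ^ 2 / 2 ≤ a i ^ 2 ∧ ρ i ≤ D0 / η with hI
  have hap : ∀ i ∈ I, 0 < a i := fun i hi => by
    have c1 := (mem_filter.1 hi).2.1
    have c2 : 0 ≤ a i := norm_nonneg _
    rcases c2.eq_or_lt with h | h
    · rw [← h] at c1; nlinarith [pow_pos h0 2]
    · exact h
  have haa : ∀ i ∈ I, ∀ j ∈ I, α ^ 2 / 2 ≤ a i * a j := fun i hi j hj => by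
    have c1 := (mem_filter.1 hi).2.1
    have c2 := (mem_filter.1 hj).2.1
    have c3 : (α ^ 2 / 2) ^ 2 ≤ (a i * a j) ^ 2 := by
      rw [mul_pow, sq]
      exact mul_le_mul c1 c2 (by positivity) (sq_nonneg _)
    exact le_of_sq_le_sq c3 (mul_pos (hap i hi) (hap j hj)).le
  set u : ι → Fin d → ℝ := fun i c => X.P i x c / a i with hu
  have huu : ∀ i j, ∑ c, u i c * u j c = ⟪X.P i x, X.P j x⟫ / (a i * a j) := fun i j => by
    rw [inner_coord, sum_div]
    exact sum_congr rfl fun c _ => by simp only [hu]; rw [div_mul_div_comm]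
  have hβ : ∀ i ∈ I, ∀ j ∈ I, α - ∑ c, u i c * u j c = R i j / (a i * a j) := fun i hi j hj => by
    have c1 := hap i hi
    have c2 := hap j hj
    rw [huu]; simp only [hR]; field_simp
  have hv := vec (D := D) h1 hη hη1 (by positivity) I d u
    (fun i hi => by
      have c1 := hap i hi
      rw [huu, real_inner_self_eq_norm_sq]
      show a i ^ 2 / (a i * a i) = 1
      field_simp)
    (fun i hi j hj h => by
      have c1 := hβ i hi j hj
      have c2 : 0 ≤ R i j / (a i * a j) :=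
        div_nonneg (hR0 i j h) (mul_pos (hap i hi) (hap j hj)).le
      linarith)
    (fun i hi => by
      have c1 : ∑ j ∈ I.erase i, (α - ∑ c, u i c * u j c) ≤ ∑ j ∈ I.erase i, R i j / (α ^ 2 / 2) :=
        sum_le_sum fun j hj => by
          rw [hβ i hi j (mem_of_mem_erase hj)]
          exact div_le_div_of_nonneg_left (hR0 i j (ne_of_mem_erase hj).symm) (by positivity)
            (haa i hi j (mem_of_mem_erase hj))
      have c2 : ∑ j ∈ I.erase i, R i j ≤ ρ i :=
        sum_le_sum_of_subset_of_nonneg (erase_subset_erase _ (subset_univ _))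
          fun j hj _ => hR0 i j (ne_of_mem_erase hj).symm
      rw [← sum_div] at c1
      refine c1.trans ?_
      have c3 : D = (D0 / η) / (α ^ 2 / 2) := by rw [hD]; field_simp
      rw [c3]
      exact div_le_div_of_nonneg_right (c2.trans (mem_filter.1 hi).2.2) (by positivity))
  have hcov : Fintype.card ι ≤ I.card + (univ.filter fun i => ‖X.P i x‖ ^ 2 < α ^ 2 / 2).card
      + (univ.filter fun i => D0 / η < ρ i).card := by
    rw [← card_univ]
    refine le_trans (card_le_card ?_) ((card_union_le _ _).trans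
      (Nat.add_le_add_right (card_union_le _ _) _))
    intro i _
    simp only [mem_union, hI, mem_filter, mem_univ, true_and]
    by_cases c1 : ‖X.P i x‖ ^ 2 < α ^ 2 / 2
    · exact Or.inl (Or.inr c1)
    by_cases c2 : D0 / η < ρ i
    · exact Or.inr c2
    exact Or.inl (Or.inl ⟨not_lt.1 c1, not_lt.1 c2⟩)
  have hcov' : (Fintype.card ι : ℝ) ≤ I.card
      + (univ.filter fun i => ‖X.P i x‖ ^ 2 < α ^ 2 / 2).card
      + (univ.filter fun i => D0 / η < ρ i).card := by exact_mod_cast hcov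
  linarith

theorem core_zero {k : ℕ} {η : ℝ} (hk : 1 ≤ k) (hη : 0 < η) (hη1 : η ≤ 1)
    (ι : Type) [Fintype ι] (d : ℕ) (X : Sys ι d k 0) :
    (Fintype.card ι : ℝ) ≤ (2 + 3 * η) * d + 3 := by
  classical
  have hz : ∀ i j, i ≠ j → ∑ c, X.f i ⟨0, hk⟩ c * X.f j ⟨0, hk⟩ c = 0 := fun i j h => by
    rw [← inner_coord, ← X.fix j, ← X.sym, ← X.fix i]
    have := X.iso i j h (X.f i ⟨0, hk⟩)
    rw [zero_mul, norm_eq_zero] at this
    rw [this, inner_zero_left]
  have hv := vec (α := 0) (D := 0) one_pos hη hη1 le_rfl univ d (fun i c => X.f i ⟨0, hk⟩ c)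
    (fun i _ => by rw [← inner_coord, real_inner_self_eq_norm_sq, X.one]; ring)
    (fun i _ j _ h => (hz i j h).le)
    (fun i _ => le_of_eq (sum_eq_zero fun j hj => by
      rw [hz i j (ne_of_mem_erase hj).symm]; ring))
  rw [card_univ] at hv
  simpa using hv

theorem core {k : ℕ} {α ε : ℝ} (hk : 1 ≤ k) (h0 : 0 ≤ α) (h1 : α < 1) (hε : 0 < ε) :
    ∃ C : ℝ, 0 ≤ C ∧ ∀ (ι : Type) [Fintype ι] (d : ℕ), Sys ι d k α →
      (Fintype.card ι : ℝ) ≤ (2 + ε) * d + C := by
  set η : ℝ := ε / (5 + ε) with hη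
  have hη0 : 0 < η := by positivity
  have hη1 : η < 1 := by rw [hη, div_lt_one (by positivity)]; linarith
  have he : 2 + 3 * η = (1 - η) * (2 + ε) := by rw [hη]; field_simp; ring
  rcases h0.eq_or_lt with rfl | h0
  · refine ⟨3, by norm_num, fun ι _ d X => (core_zero hk hη0 hη1.le ι d X).trans ?_⟩
    have : (2 + 3 * η) * (d : ℝ) ≤ (2 + ε) * d :=
      mul_le_mul_of_nonneg_right (by nlinarith) (Nat.cast_nonneg _)
    linarith
  obtain ⟨C, hC, h⟩ := core_pos hk h0 h1 hη0 hη1.le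
  have h2 : 0 < 1 - η := by linarith
  refine ⟨C / (1 - η), by positivity, fun ι _ d X => ?_⟩
  have h3 := h ι d X
  have h4 : (1 - η) * ((2 + ε) * d + C / (1 - η)) = (2 + 3 * η) * d + C := by
    rw [he]; field_simp
  rw [← h4] at h3
  exact le_of_mul_le_mul_left h3 h2

theorem mkSys {d k : ℕ} {α : ℝ} (S : Finset (Submodule ℝ (EuclideanSpace ℝ (Fin d))))
    (hk : ∀ U ∈ S, Module.finrank ℝ U = k)
    (hi : ∀ U ∈ S, ∀ V ∈ S, U ≠ V → ∀ u ∈ U, ‖u‖ = 1 → ‖V.starProjection u‖ = α) :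
    Nonempty (Sys S d k α) := by
  have hb : ∀ U : S, Nonempty (OrthonormalBasis (Fin k) ℝ U.1) := fun U =>
    ⟨(stdOrthonormalBasis ℝ U.1).reindex (finCongr (hk U.1 U.2))⟩
  let b := fun U : S => (hb U).some
  refine ⟨⟨fun U => U.1.starProjection.toLinearMap, fun U s => (b U s : EuclideanSpace ℝ (Fin d)),
    fun U x y => U.1.inner_starProjection_left_eq_right x y, fun U x => ?_, fun U V h x => ?_,
    fun U x y => ?_, fun U s => ?_, fun U s => ?_⟩⟩
  · exact Submodule.starProjection_eq_self_iff.2 (U.1.starProjection_apply_mem x)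
  · show ‖V.1.starProjection (U.1.starProjection x)‖ = α * ‖U.1.starProjection x‖
    set y := U.1.starProjection x with hy
    have hm : y ∈ U.1 := U.1.starProjection_apply_mem x
    rcases eq_or_ne y 0 with h0 | h0
    · rw [h0]; simp
    have hn : 0 < ‖y‖ := norm_pos_iff.2 h0
    have := hi U.1 U.2 V.1 V.2 (fun e => h (Subtype.ext e)) (‖y‖⁻¹ • y) (U.1.smul_mem _ hm)
      (by simp [norm_smul, hn.ne'])
    rw [map_smul, norm_smul, norm_inv, norm_norm] at this
    rw [← this]; field_simp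
  · show ⟪U.1.starProjection x, y⟫ = _
    rw [(b U).starProjection_eq_sum_rankOne, _root_.sum_apply, sum_inner]
    refine sum_congr rfl fun s _ => ?_
    rw [InnerProductSpace.rankOne_apply, real_inner_smul_left]
  · exact Submodule.starProjection_eq_self_iff.2 (b U s).2
  · exact (b U).orthonormal.1 s

theorem main (k : ℕ) (hk : 1 ≤ k) (α : ℝ) (h0 : 0 ≤ α) (h1 : α ≤ 1) (ε : ℝ) (hε : 0 < ε) :
    ∃ C : ℝ, 0 ≤ C ∧ ∀ (d : ℕ) (S : Finset (Submodule ℝ (EuclideanSpace ℝ (Fin d)))),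
      (∀ U ∈ S, Module.finrank ℝ U = k) →
      (∀ U ∈ S, ∀ V ∈ S, U ≠ V → ∀ u ∈ U, ‖u‖ = 1 → ‖V.starProjection u‖ = α) →
      (S.card : ℝ) ≤ (2 + ε) * d + C := by
  rcases h1.eq_or_lt with rfl | h1
  · refine ⟨1, zero_le_one, fun d S hS hi => ?_⟩
    have hsub : ∀ U ∈ S, ∀ V ∈ S, U ≠ V → U ≤ V := by
      intro U hU V hV h y hm
      rcases eq_or_ne y 0 with h0 | h0
      · rw [h0]; exact V.zero_mem
      have hn : 0 < ‖y‖ := norm_pos_iff.2 h0
      have h2 : ‖‖y‖⁻¹ • y‖ = 1 := by simp [norm_smul, hn.ne']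
      have h3 := hi U hU V hV h (‖y‖⁻¹ • y) (U.smul_mem _ hm) h2
      have h4 : ‖y‖⁻¹ • y ∈ V := (V.mem_iff_norm_starProjection _).2 (h3.trans h2.symm)
      exact (V.smul_mem_iff (inv_ne_zero hn.ne')).1 h4
    have hc : S.card ≤ 1 := card_le_one.2 fun U hU V hV => by
      by_contra h
      exact h (le_antisymm (hsub U hU V hV h) (hsub V hV U hU (Ne.symm h)))
    have hc' : (S.card : ℝ) ≤ 1 := by exact_mod_cast hc
    have : 0 ≤ (2 + ε) * (d : ℝ) := by positivity
    linarith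
  obtain ⟨C, hC, h⟩ := core hk h0 h1 hε
  refine ⟨C, hC, fun d S hS hi => ?_⟩
  obtain ⟨X⟩ := mkSys S hS hi
  simpa using h S d X

end Pool.Agent.H.MP_932050_co
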